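import Pool.Agent.Q61.Strip

set_option autoImplicit false

open MeasureTheory InnerProductSpace Laplacian Topology Filter Set
open scoped ContDiff ENNReal

namespace Pool.Agent.Results.MP_0fb7ac_an.DiameterTwoPi

/-- Continuous, piecewise `C¹` curves `γ : [0,1] → ℂ = ℝ²`. -/
def PiecewiseC1 (γ : ℝ → ℂ) : Prop :=
  ContinuousOn γ (Icc 0 1) ∧ ∃ (n : ℕ) (t : ℕ → ℝ), Monotone t ∧ t 0 = 0 ∧ t n = 1 ∧
    ∀ i < n, t i < t (i + 1) → ContDiffOn ℝ 1 γ (Icc (t i) (t (i + 1)))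

/-- The length of `γ` for the metric `e^{2u}|dz|²`. -/
noncomputable def glength (u : ℂ → ℝ) (γ : ℝ → ℂ) : ℝ :=
  ∫ t in (0:ℝ)..1, Real.exp (u (γ t)) * ‖deriv γ t‖

/-- The distance of `x` and `y` for the metric `e^{2u}|dz|²`. -/
noncomputable def gdist (u : ℂ → ℝ) (x y : ℂ) : ℝ≥0∞ :=
  ⨅ (γ : ℝ → ℂ) (_ : PiecewiseC1 γ ∧ γ 0 = x ∧ γ 1 = y), ENNReal.ofReal (glength u γ)

/-- The diameter of the plane for the metric `e^{2u}|dz|²`. -/
noncomputable def gdiam (u : ℂ → ℝ) : ℝ≥0∞ := ⨆ (x : ℂ) (y : ℂ), gdist u x y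

/-- For every `L < 2π` there is a smooth `u` on the plane with `Δu + e^{2u} ≤ 0` and finite area
`∫ e^{2u}`, whose conformal metric has diameter larger than `L`. -/
theorem result : ∀ L : ℝ, L < 2 * Real.pi → ∃ u : ℂ → ℝ, ContDiff ℝ ∞ u ∧
    (∀ z, (Δ u) z + Real.exp (2 * u z) ≤ 0) ∧ Integrable (fun z => Real.exp (2 * u z)) ∧
    ENNReal.ofReal L < gdiam u := by
  intro L hL
  have hpi := Real.pi_pos
  set L' := max L 0 with hL'
  have hL1 : L' < 2 * Real.pi := max_lt hL (by positivity)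
  -- choice of `b`
  have hcont : Continuous (fun b : ℝ => 2 * (Real.arcsin b + Real.arcsin (b * b))) :=
    continuous_const.mul (Real.continuous_arcsin.add
      (Real.continuous_arcsin.comp (continuous_id.mul continuous_id)))
  have h1 : ∀ᶠ b in 𝓝 (1:ℝ), L' < 2 * (Real.arcsin b + Real.arcsin (b * b)) := by
    apply hcont.continuousAt.eventually (Ioi_mem_nhds _)
    simp only [mul_one, Real.arcsin_one]; linarith
  obtain ⟨b, hb1, hb2, hb3⟩ : ∃ b : ℝ, L' < 2 * (Real.arcsin b + Real.arcsin (b * b)) ∧ 0 < b ∧ b < 1 := by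
    have h2 : ∀ᶠ b in 𝓝[<] (1:ℝ), L' < 2 * (Real.arcsin b + Real.arcsin (b * b)) :=
      nhdsWithin_le_nhds h1
    have h3 : ∀ᶠ b in 𝓝[<] (1:ℝ), b ∈ Ioo (0:ℝ) 1 := Ioo_mem_nhdsLT (by norm_num)
    obtain ⟨b, hb⟩ := (h2.and h3).exists
    exact ⟨b, hb.1, hb.2.1, hb.2.2⟩
  -- choice of `ε`
  have hcont2 : Continuous (fun ε : ℝ => Real.exp (-ε * (2 * Real.pi) ^ 2) *
      (2 * (Real.arcsin b + Real.arcsin (b * b)))) := by fun_prop
  have h4 : ∀ᶠ ε in 𝓝 (0:ℝ), L' < Real.exp (-ε * (2 * Real.pi) ^ 2) *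
      (2 * (Real.arcsin b + Real.arcsin (b * b))) := by
    apply hcont2.continuousAt.eventually (Ioi_mem_nhds _)
    simpa using hb1
  obtain ⟨ε, hε1, hε2⟩ : ∃ ε : ℝ, L' < Real.exp (-ε * (2 * Real.pi) ^ 2) *
      (2 * (Real.arcsin b + Real.arcsin (b * b))) ∧ 0 < ε := by
    have h2 : ∀ᶠ ε in 𝓝[>] (0:ℝ), L' < Real.exp (-ε * (2 * Real.pi) ^ 2) *
      (2 * (Real.arcsin b + Real.arcsin (b * b))) := nhdsWithin_le_nhds h4
    have h3 : ∀ᶠ ε in 𝓝[>] (0:ℝ), ε ∈ Ioi (0:ℝ) := self_mem_nhdsWithin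
    obtain ⟨b, hb⟩ := (h2.and h3).exists
    exact ⟨b, hb.1, hb.2⟩
  refine ⟨Q61.Strip.u b ε, Q61.Strip.u_smooth hb2 hb3 ε, Q61.Strip.lap_u hb2 hb3 ε hε2.le,
    Q61.Strip.integ hb2 hb3 hε2, ?_⟩
  set d := Real.exp (-ε * (2 * Real.pi) ^ 2) * (2 * (Real.arcsin b + Real.arcsin (b * b)))
  have h5 : ENNReal.ofReal d ≤ gdist (Q61.Strip.u b ε) ((Real.pi : ℂ) * Complex.I)
      (-((Real.pi : ℂ) * Complex.I)) := by
    unfold gdist
    refine le_iInf₂ fun γ hγ => ?_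
    apply ENNReal.ofReal_le_ofReal
    obtain ⟨⟨hc, m, t, ht⟩, ha, hb⟩ := hγ
    exact Q61.Strip.far hb2 hb3 hε2.le ⟨zero_le_one, hc, m, t, ht⟩ ha hb
  have h6 : gdist (Q61.Strip.u b ε) ((Real.pi : ℂ) * Complex.I) (-((Real.pi : ℂ) * Complex.I)) ≤
      gdiam (Q61.Strip.u b ε) := le_iSup₂ (f := fun x y => gdist (Q61.Strip.u b ε) x y) _ _
  refine lt_of_lt_of_le ?_ (h5.trans h6)
  have h7 : 0 ≤ L' := le_max_right _ _
  rw [ENNReal.ofReal_lt_ofReal_iff (by linarith)]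
  exact lt_of_le_of_lt (le_max_left _ _) hε1

end Pool.Agent.Results.MP_0fb7ac_an.DiameterTwoPi
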